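import Mathlib

/-!
# Zero-sum-free sets of residues: some realizing set contains a residue coprime to the modulus
-/

set_option autoImplicit false

namespace Pool.Agent.Results.MP_a37b83_nt.AlwaysAUnit

open Finset

/-- No nonempty subset of `S` has sum `0` modulo `m`. -/
def ZeroSumFree (m : ℕ) (S : Finset (ZMod m)) : Prop :=
  ∀ T : Finset (ZMod m), T ⊆ S → T.Nonempty → ∑ x ∈ T, x ≠ 0

/-- The largest size of a zero-sum-free set of residues modulo `m`. -/
noncomputable def kk (m : ℕ) : ℕ := sSup {n | ∃ S : Finset (ZMod m), ZeroSumFree m S ∧ S.card = n}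

/-- A zero-sum-free set of residues modulo `m` with exactly `k(m)` elements. -/
def Realizing (m : ℕ) (S : Finset (ZMod m)) : Prop := ZeroSumFree m S ∧ S.card = kk m

/-- `b(m) = ⌊(-1 + √(8m+9))/2⌋`. -/
noncomputable def bb (m : ℕ) : ℕ := ⌊(-1 + Real.sqrt (8 * m + 9)) / 2⌋₊

/-- The set `E` of the `m ≥ 5` with `k(m) = b(m)`. -/
def EE : Set ℕ := {m | 5 ≤ m ∧ kk m = bb m}

theorem bb_le (m : ℕ) : bb m * (bb m + 1) ≤ 2 * m + 2 := by
  have h0 : (0 : ℝ) ≤ (-1 + Real.sqrt (8 * m + 9)) / 2 := by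
    have : (1 : ℝ) ≤ Real.sqrt (8 * m + 9) := by
      rw [Real.one_le_sqrt]
      have : (0 : ℝ) ≤ m := Nat.cast_nonneg m
      linarith
    linarith
  have h1 : (bb m : ℝ) ≤ (-1 + Real.sqrt (8 * m + 9)) / 2 := Nat.floor_le h0
  have h2 : Real.sqrt (8 * m + 9) ^ 2 = 8 * m + 9 := Real.sq_sqrt (by positivity)
  have h3 : (0 : ℝ) ≤ bb m := Nat.cast_nonneg _
  have h4 : (2 * (bb m : ℝ) + 1) ^ 2 ≤ 8 * m + 9 := by
    rw [← h2]
    apply pow_le_pow_left₀ (by linarith)
    linarith
  have h5 : ((bb m * (bb m + 1) : ℕ) : ℝ) ≤ ((2 * m + 2 : ℕ) : ℝ) := by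
    push_cast
    nlinarith
  exact_mod_cast h5

/-- the integers `1, -2, 3, 4, ..., b` -/
noncomputable def base (b : ℕ) : Finset ℤ := insert 1 (insert (-2) (Icc 3 (b : ℤ)))

theorem mem_base {b : ℕ} {x : ℤ} : x ∈ base b ↔ x = 1 ∨ x = -2 ∨ (3 ≤ x ∧ x ≤ b) := by
  simp [base]

theorem sum_Icc' (b : ℕ) (hb : 3 ≤ b) : 2 * ∑ x ∈ Icc 3 (b : ℤ), x + 6 = (b : ℤ) * (b + 1) := by
  induction b, hb using Nat.le_induction with
  | base => decide
  | succ n hn ih =>
    have e : Icc 3 ((n + 1 : ℕ) : ℤ) = insert ((n + 1 : ℕ) : ℤ) (Icc 3 (n : ℤ)) := by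
      ext x
      simp only [mem_Icc, mem_insert]
      push_cast
      omega
    rw [e, sum_insert (by simp), mul_add, add_assoc, ih]
    push_cast
    ring

/-- subset sums of `{1, -2, 3, ..., b}` are not `0` and lie between `-2` and `b(b+1)/2 - 2`. -/
theorem subset_sum {b : ℕ} (hb : 3 ≤ b) {T : Finset ℤ} (hT : T ⊆ base b) (hne : T.Nonempty) :
    ∑ x ∈ T, x ≠ 0 ∧ -2 ≤ ∑ x ∈ T, x ∧ 2 * ∑ x ∈ T, x + 4 ≤ (b : ℤ) * (b + 1) := by
  classical
  set P := T.filter (fun x => 0 < x) with hP
  have hsplit : ∑ x ∈ T, x = ∑ x ∈ P, x + ∑ x ∈ T.filter (fun x => ¬ 0 < x), x :=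
    (sum_filter_add_sum_filter_not T _ _).symm
  have hN : T.filter (fun x => ¬ 0 < x) ⊆ {-2} := by
    intro x hx
    rw [mem_filter] at hx
    rcases mem_base.1 (hT hx.1) with h | h | h
    · omega
    · simp [h]
    · omega
  have hPsub : P ⊆ insert 1 (Icc 3 (b : ℤ)) := by
    intro x hx
    rw [hP, mem_filter] at hx
    rcases mem_base.1 (hT hx.1) with h | h | h
    · simp [h]
    · omega
    · simp [h.1, h.2]
  have hPle : ∑ x ∈ P, x ≤ ∑ x ∈ insert 1 (Icc 3 (b : ℤ)), x := by
    apply sum_le_sum_of_subset_of_nonneg hPsub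
    intro x hx _
    rcases mem_insert.1 hx with h | h
    · omega
    · rw [mem_Icc] at h; omega
  rw [sum_insert (by simp)] at hPle
  have hS := sum_Icc' b hb
  have hP0 : 0 ≤ ∑ x ∈ P, x := sum_nonneg fun x hx => by
    rw [hP, mem_filter] at hx
    exact hx.2.le
  -- the sum of the positive part is not `2`
  have hP2 : ∑ x ∈ P, x ≠ 2 := by
    intro h2
    by_cases h3 : ∃ x ∈ P, 3 ≤ x
    · obtain ⟨x, hx, hx3⟩ := h3
      have := single_le_sum (f := fun x : ℤ => x) (fun y hy => by
        rw [hP, mem_filter] at hy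
        exact hy.2.le) hx
      change x ≤ ∑ x ∈ P, x at this
      omega
    · push Not at h3
      have hP1 : P ⊆ {1} := by
        intro x hx
        have h4 := h3 x hx
        rcases mem_insert.1 (hPsub hx) with h | h
        · simp [h]
        · rw [mem_Icc] at h; omega
      rcases subset_singleton_iff.1 hP1 with h | h
      · rw [h, sum_empty] at h2; omega
      · rw [h, sum_singleton] at h2; omega
  rcases subset_singleton_iff.1 hN with h | h
  · rw [h, sum_empty, add_zero] at hsplit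
    have hPT : P = T := by
      rw [hP, filter_eq_self]
      intro x hx
      by_contra hcon
      have : x ∈ T.filter (fun x => ¬ 0 < x) := mem_filter.2 ⟨hx, hcon⟩
      rw [h] at this
      exact absurd this (notMem_empty x)
    have hpos : 0 < ∑ x ∈ P, x := by
      apply sum_pos
      · intro x hx
        rw [hP, mem_filter] at hx
        exact hx.2
      · rw [hPT]; exact hne
    refine ⟨by omega, by omega, ?_⟩
    -- the sum is at most `b (b + 1) / 2 - 2`
    rw [hsplit]
    linarith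
  · rw [h, sum_singleton] at hsplit
    refine ⟨by omega, by omega, ?_⟩
    rw [hsplit]
    linarith

theorem exists_realizing (m : ℕ) (hm : 5 ≤ m) : ∃ S, Realizing m S := by
  have : NeZero m := ⟨by omega⟩
  have hne : {n | ∃ S : Finset (ZMod m), ZeroSumFree m S ∧ S.card = n}.Nonempty :=
    ⟨0, ∅, fun T hT hT' => by
      rw [subset_empty.1 hT] at hT'
      exact absurd hT' (by simp), card_empty⟩
  have hbd : BddAbove {n | ∃ S : Finset (ZMod m), ZeroSumFree m S ∧ S.card = n} := by
    refine ⟨Fintype.card (ZMod m), ?_⟩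
    rintro n ⟨S, -, rfl⟩
    exact card_le_univ S
  obtain ⟨S, h1, h2⟩ := Nat.sSup_mem hne hbd
  exact ⟨S, h1, h2⟩

/-- For `m ≥ 6` the residues of `1, -2, 3, ..., b(m)` form a zero-sum-free set with `b(m)`
elements. -/
theorem family (m : ℕ) (hm : 6 ≤ m) : ∃ S : Finset (ZMod m), ZeroSumFree m S ∧ S.card = bb m ∧
    (1 : ZMod m) ∈ S := by
  classical
  have : NeZero m := ⟨by omega⟩
  set b := bb m with hb
  have h1 := bb_le m
  rw [← hb] at h1
  have hb3 : 3 ≤ b := by
    rw [hb, bb]
    apply Nat.le_floor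
    have h2 : (7 : ℝ) ≤ Real.sqrt (8 * m + 9) := by
      apply Real.le_sqrt_of_sq_le
      have : (6 : ℝ) ≤ m := by exact_mod_cast hm
      linarith
    push_cast
    linarith
  have hbm : b + 2 < m := by
    by_contra hcon
    push Not at hcon
    nlinarith
  have hinj : Set.InjOn (Int.cast : ℤ → ZMod m) (base b) := by
    intro x hx y hy hxy
    rw [ZMod.intCast_eq_intCast_iff_dvd_sub] at hxy
    have hx' := mem_base.1 (mem_coe.1 hx)
    have hy' := mem_base.1 (mem_coe.1 hy)
    obtain ⟨c, hc⟩ := hxy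
    have hc0 : c = 0 := by
      have hlt : y - x < m := by omega
      have hgt : -(m : ℤ) < y - x := by omega
      rw [hc] at hlt hgt
      have hm0 : (0 : ℤ) < m := by omega
      have h3 : c < 1 := by nlinarith
      have h4 : -1 < c := by nlinarith
      omega
    rw [hc0, mul_zero] at hc
    omega
  refine ⟨(base b).image (Int.cast : ℤ → ZMod m), ?_, ?_, ?_⟩
  · intro T hT hne hsum
    obtain ⟨T', hT', rfl⟩ := subset_image_iff.1 hT
    have hne' : T'.Nonempty := image_nonempty.1 hne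
    rw [sum_image (fun x hx y hy => hinj (hT' hx) (hT' hy))] at hsum
    obtain ⟨h2, h3, h4⟩ := subset_sum hb3 (by exact_mod_cast hT') hne'
    rw [← Int.cast_sum, ZMod.intCast_zmod_eq_zero_iff_dvd] at hsum
    obtain ⟨c, hc⟩ := hsum
    have h5 : 2 * ∑ x ∈ T', x < 2 * m := by
      have : (b : ℤ) * (b + 1) ≤ 2 * m + 2 := by exact_mod_cast h1
      linarith
    have hm0 : (0 : ℤ) < m := by omega
    rw [hc] at h2 h3 h5
    have h6 : c < 1 := by nlinarith
    have h7 : -1 < c := by
      by_contra h8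
      push Not at h8
      have : (m : ℤ) * c ≤ m * (-1) := mul_le_mul_of_nonneg_left h8 hm0.le
      omega
    have h8 : c = 0 := by omega
    rw [h8, mul_zero] at h2
    exact h2 rfl
  · rw [card_image_of_injOn hinj, base, card_insert_of_notMem (by simp),
      card_insert_of_notMem (by simp), Int.card_Icc]
    omega
  · exact mem_image.2 ⟨1, mem_base.2 (Or.inl rfl), by simp⟩

/-- **Q2: for every `m ∈ E` some realizing set for `m` contains an element coprime to `m`.** -/
theorem result (m : ℕ) (hm : m ∈ EE) :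
    ∃ S : Finset (ZMod m), Realizing m S ∧ ∃ a ∈ S, (a.val).Coprime m := by
  obtain ⟨h5, hk⟩ := hm
  have : NeZero m := ⟨by omega⟩
  rcases Nat.lt_or_ge 5 m with h6 | h6
  · obtain ⟨S, h1, h2, h3⟩ := family m h6
    refine ⟨S, ⟨h1, h2.trans hk.symm⟩, 1, h3, ?_⟩
    have : Fact (1 < m) := ⟨by omega⟩
    rw [ZMod.val_one]
    exact Nat.coprime_one_left m
  · have h5' : m = 5 := by omega
    subst h5'
    obtain ⟨S, hS⟩ := exists_realizing 5 le_rfl
    have hpos : 0 < S.card := by
      rw [hS.2, hk, bb]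
      apply Nat.floor_pos.2
      have h2 : (3 : ℝ) ≤ Real.sqrt (8 * (5 : ℕ) + 9) := by
        apply Real.le_sqrt_of_sq_le
        norm_num
      linarith
    obtain ⟨a, ha⟩ := card_pos.1 hpos
    refine ⟨S, hS, a, ha, ?_⟩
    have ha0 : a ≠ 0 := by
      intro h0
      exact hS.1 {a} (singleton_subset_iff.2 ha) (singleton_nonempty a) (by simpa using h0)
    have h7 : a.val ≠ 0 := fun h => ha0 ((ZMod.val_eq_zero a).1 h)
    have h8 := ZMod.val_lt a
    exact (Nat.coprime_of_lt_prime h7 h8 Nat.prime_five).symm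

end Pool.Agent.Results.MP_a37b83_nt.AlwaysAUnit
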